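import Mathlib
set_option autoImplicit false
set_option linter.all false

/-!
# Groups with the law `[x,y] = [x,y,y,y,y]`: elements of order `2^i 3^j` are central

Let `G` be a group with `[x,y] = [x,_4 y]` for all `x`, `y`. If `y` commutes with `y^x` then
`[x,y]` commutes with `y`, so that `[x,y] = [x,_4 y] = 1`. Hence an element conjugate to its inverse
has square `1`, and involutions are central (the product of two conjugate involutions is conjugate to
its inverse); the second centre is the centre.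

Elements of order 3. Put `b = [x,y]`, `c = [b,y]`, `d = [c,y]`. Then `b = [d,y]`, and
`b^y = bc`, `c^y = cd`, `d^y = db`. The law for the pair `(d^(y^4), y⁻¹)` gives
`b c² d² b d⁻¹c⁻¹d⁻¹c⁻¹ b⁻¹ = b⁻¹ d⁻² c⁻¹ d⁻¹ c⁻² b⁻¹`, and its cyclic permutations. If `y³ = 1`
then `b = b^(y³)` gives `c² d c d² b = 1`, and its cyclic permutations. These relations imply
`c b⁻¹ c⁻¹ = b`. So `b² = 1`, `b` is central and `b = [d,y] = [b,y,y,y] = 1`.
-/

namespace Pool.Agent.Results.MP_429c3d_al.FourfoldTorsion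

open scoped commutatorElement

/-- the law `[x,y] = [x,_n y]` (used in the proof only) -/
def Law (n : ℕ) (G : Type) [Group G] : Prop :=
  ∀ x y : G, x⁻¹ * y⁻¹ * x * y = (fun z : G => z⁻¹ * y⁻¹ * z * y)^[n] x

variable {n : ℕ}

theorem map_iter {G Q : Type} [Group G] [Group Q] (f : G →* Q) (y : G) (k : ℕ) (x : G) :
    f ((fun z : G => z⁻¹ * y⁻¹ * z * y)^[k] x) = (fun z : Q => z⁻¹ * (f y)⁻¹ * z * f y)^[k] (f x) := by
  induction k with
  | zero => rfl
  | succ k ih => rw [Function.iterate_succ_apply', Function.iterate_succ_apply', ← ih]; simp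

theorem Law.inj {G Q : Type} [Group G] [Group Q] (f : G →* Q) (hf : Function.Injective f)
    (h : Law n Q) : Law n G := by
  intro x y
  apply hf
  rw [map_iter]
  simpa using h (f x) (f y)

theorem Law.surj {G Q : Type} [Group G] [Group Q] (f : G →* Q) (hf : Function.Surjective f)
    (h : Law n G) : Law n Q := by
  intro x y
  obtain ⟨x, rfl⟩ := hf x
  obtain ⟨y, rfl⟩ := hf y
  rw [← map_iter, ← h x y]; simp

/-- (P) -/
theorem Law.comm {G : Type} [Group G] (hn : 1 < n) (h : Law n G) (x y : G)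
    (hc : Commute y (x⁻¹ * y * x)) : Commute x y := by
  obtain ⟨m, rfl⟩ : ∃ m, n = m + 2 := ⟨n - 2, by omega⟩
  have h1 := h x y
  rw [Function.iterate_add_apply] at h1
  have h2 : (fun z : G => z⁻¹ * y⁻¹ * z * y)^[2] x = 1 := by
    show (x⁻¹ * y⁻¹ * x * y)⁻¹ * y⁻¹ * (x⁻¹ * y⁻¹ * x * y) * y = 1
    have hb : Commute y (x⁻¹ * y⁻¹ * x * y) := by
      apply Commute.mul_right _ (Commute.refl y)
      have := hc.inv_right
      simpa [mul_assoc] using this
    have : (x⁻¹ * y⁻¹ * x * y)⁻¹ * y⁻¹ * (x⁻¹ * y⁻¹ * x * y) * y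
        = (x⁻¹ * y⁻¹ * x * y)⁻¹ * (y⁻¹ * (x⁻¹ * y⁻¹ * x * y)) * y := by group
    rw [this, hb.inv_left.eq]
    group
  have h3 : (fun z : G => z⁻¹ * y⁻¹ * z * y)^[m] (1 : G) = 1 := by
    apply Function.iterate_fixed
    simp
  rw [h2, h3] at h1
  have : x * y = y * x := by
    have e : y * x * (x⁻¹ * y⁻¹ * x * y) = x * y := by group
    rw [h1] at e; simpa using e.symm
  exact this

theorem Law.abelian_of_derived {G : Type} [Group G] (hn : 1 < n) (h : Law n G)
    (hG : ∀ a ∈ commutator G, ∀ b ∈ commutator G, Commute a b) (a b : G) : a * b = b * a := by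
  have hz : ∀ c ∈ commutator G, ∀ x : G, Commute x c := by
    intro c hc x
    apply h.comm hn
    apply hG _ hc
    have := (inferInstance : (commutator G).Normal).conj_mem c hc x⁻¹
    simpa using this
  apply h.comm hn a b
  have e : a⁻¹ * b * a = b * (b⁻¹ * a⁻¹ * b * a) := by group
  rw [e]
  apply (Commute.refl b).mul_right
  apply hz
  have := Subgroup.commutator_mem_commutator (Subgroup.mem_top b⁻¹) (Subgroup.mem_top a⁻¹)
  simpa [commutatorElement_def, commutator_def] using this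

/-- an element conjugate to its inverse -/
theorem Law.real {G : Type} [Group G] (hn : 1 < n) (h : Law n G) (g b : G)
    (hb : g⁻¹ * b * g = b⁻¹) : b * b = 1 := by
  have hc : Commute b (g⁻¹ * b * g) := by rw [hb]; exact (Commute.refl b).inv_right
  have := h.comm hn g b hc
  have e : g⁻¹ * b * g = b := by rw [mul_assoc, ← this.eq]; group
  rw [hb] at e
  calc b * b = b * b⁻¹ := by rw [e]
    _ = 1 := by group

theorem Law.involution {G : Type} [Group G] (hn : 1 < n) (h : Law n G) (y : G) (hy : y * y = 1) (x : G) :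
    Commute x y := by
  apply h.comm hn
  have hz : (x⁻¹ * y * x) * (x⁻¹ * y * x) = 1 := by
    calc (x⁻¹ * y * x) * (x⁻¹ * y * x) = x⁻¹ * (y * y) * x := by group
      _ = 1 := by rw [hy]; group
  set z := x⁻¹ * y * x with hzdef
  have yi : y⁻¹ = y := inv_eq_of_mul_eq_one_left hy
  have zi : z⁻¹ = z := inv_eq_of_mul_eq_one_left hz
  have hr : y⁻¹ * (y * z) * y = (y * z)⁻¹ := by
    rw [mul_inv_rev, yi, zi, ← mul_assoc, hy, one_mul]
  have := h.real hn y (y * z) hr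
  show y * z = z * y
  have e2 : y * z = (y * z)⁻¹ := by
    exact (inv_eq_of_mul_eq_one_left this).symm
  rw [e2, mul_inv_rev, yi, zi]

theorem Law.second_center {G : Type} [Group G] (hn : 1 < n) (h : Law n G) (g : G)
    (hg : (g : G ⧸ Subgroup.center G) ∈ Subgroup.center (G ⧸ Subgroup.center G)) :
    g ∈ Subgroup.center G := by
  rw [Subgroup.mem_center_iff]
  intro x
  apply (h.comm hn x g _).eq
  rw [Subgroup.mem_center_iff] at hg
  have h1 := hg (x : G ⧸ Subgroup.center G)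
  have h2 : g⁻¹ * (x⁻¹ * g * x) ∈ Subgroup.center G := by
    rw [← QuotientGroup.eq_one_iff]
    have e3 : ((g⁻¹ * (x⁻¹ * g * x) : G) : G ⧸ Subgroup.center G)
        = (g : G ⧸ Subgroup.center G)⁻¹ * ((x : G ⧸ Subgroup.center G)⁻¹ * (g * x)) := by
      rw [← mul_assoc (x : G ⧸ Subgroup.center G)⁻¹]; rfl
    rw [e3, ← h1]
    group
  rw [Subgroup.mem_center_iff] at h2
  have e : x⁻¹ * g * x = g * (g⁻¹ * (x⁻¹ * g * x)) := by group
  rw [e]
  exact (Commute.refl g).mul_right (h2 g)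

theorem Law.two_power {G : Type} [Group G] (hn : 1 < n) (h : Law n G) (k : ℕ) (g : G)
    (hg : g ^ 2 ^ k = 1) : g ∈ Subgroup.center G := by
  induction k generalizing g with
  | zero => simp at hg; rw [hg]; exact Subgroup.one_mem _
  | succ k ih =>
    have h2 : g ^ 2 ∈ Subgroup.center G := by
      apply ih
      rw [← pow_mul, ← hg]; congr 1; ring
    apply h.second_center hn
    rw [Subgroup.mem_center_iff]
    intro x
    have hQ : Law n (G ⧸ Subgroup.center G) := h.surj (QuotientGroup.mk' _) (QuotientGroup.mk'_surjective _)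
    apply (hQ.involution hn _ _ x).eq
    have : ((g ^ 2 : G) : G ⧸ Subgroup.center G) = 1 := (QuotientGroup.eq_one_iff _).2 h2
    rw [pow_two] at this
    simpa using this


/-- the relation obtained from the law for `y⁻¹` -/
theorem Law.rel {G : Type} [Group G] (h : Law 4 G) (y b c d : G) (hb : y⁻¹ * b * y = b * c)
    (hc : y⁻¹ * c * y = c * d) (hd : y⁻¹ * d * y = d * b) :
    b * c * c * d * d * b * d⁻¹ * c⁻¹ * d⁻¹ * c⁻¹ * b⁻¹ = b⁻¹ * d⁻¹ * d⁻¹ * c⁻¹ * d⁻¹ * c⁻¹ * c⁻¹ * b⁻¹ := by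
  have m : ∀ u v : G, y⁻¹ * (u * v) * y = (y⁻¹ * u * y) * (y⁻¹ * v * y) := by intro u v; group
  have z1 : y⁻¹ * d * y = d * b := hd
  have z2 : y⁻¹ * (d * b) * y = d * b * (b * c) := by rw [m, hd, hb]
  have z3 : y⁻¹ * (d * b * (b * c)) * y = d * b * (b * c) * (b * c * (c * d)) := by
    rw [m, z2, m, hb, hc]
  have z4 : y⁻¹ * (d * b * (b * c) * (b * c * (c * d))) * y
      = d * b * (b * c) * (b * c * (c * d)) * (b * c * (c * d) * (c * d * (d * b))) := by
    rw [m, z3, m (b * c) (c * d), m b c, m c d, hb, hc, hd]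
  have e2 : y⁻¹ * (y⁻¹ * d * y) * y = d * b * (b * c) := by rw [z1, z2]
  have e3 : y⁻¹ * (y⁻¹ * (y⁻¹ * d * y) * y) * y = d * b * (b * c) * (b * c * (c * d)) := by
    rw [z1, z2, z3]
  have e4 : y⁻¹ * (y⁻¹ * (y⁻¹ * (y⁻¹ * d * y) * y) * y) * y
      = d * b * (b * c) * (b * c * (c * d)) * (b * c * (c * d) * (c * d * (d * b))) := by
    rw [z1, z2, z3, z4]
  have key := h (y⁻¹ * (y⁻¹ * (y⁻¹ * (y⁻¹ * d * y) * y) * y) * y) y⁻¹
  have key2 : (y⁻¹ * (y⁻¹ * (y⁻¹ * (y⁻¹ * d * y) * y) * y) * y)⁻¹ * (y⁻¹ * (y⁻¹ * (y⁻¹ * d * y) * y) * y)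
      = ((y⁻¹ * (y⁻¹ * d * y) * y)⁻¹ * (y⁻¹ * (y⁻¹ * (y⁻¹ * d * y) * y) * y)
          * (y⁻¹ * (y⁻¹ * (y⁻¹ * (y⁻¹ * d * y) * y) * y) * y)⁻¹ * (y⁻¹ * (y⁻¹ * (y⁻¹ * d * y) * y) * y)
          * (y⁻¹ * (y⁻¹ * d * y) * y)⁻¹ * (y⁻¹ * (y⁻¹ * (y⁻¹ * d * y) * y) * y)
          * (y⁻¹ * (y⁻¹ * d * y) * y)⁻¹ * (y⁻¹ * d * y))⁻¹
        * ((y⁻¹ * d * y)⁻¹ * (y⁻¹ * (y⁻¹ * d * y) * y) * (y⁻¹ * (y⁻¹ * (y⁻¹ * d * y) * y) * y)⁻¹
          * (y⁻¹ * (y⁻¹ * d * y) * y) * (y⁻¹ * d * y)⁻¹ * (y⁻¹ * (y⁻¹ * d * y) * y)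
          * (y⁻¹ * d * y)⁻¹ * d) := by
    have l1 : (y⁻¹ * (y⁻¹ * (y⁻¹ * (y⁻¹ * d * y) * y) * y) * y)⁻¹ * (y⁻¹)⁻¹ *
        (y⁻¹ * (y⁻¹ * (y⁻¹ * (y⁻¹ * d * y) * y) * y) * y) * y⁻¹ =
        (y⁻¹ * (y⁻¹ * (y⁻¹ * (y⁻¹ * d * y) * y) * y) * y)⁻¹ * (y⁻¹ * (y⁻¹ * (y⁻¹ * d * y) * y) * y) := by
      group
    rw [← l1, key]
    simp only [Function.iterate_succ, Function.iterate_zero, Function.comp, id]
    group
  rw [e4, e3, e2, z1] at key2
  have f1 : b * c * c * d * d * b * d⁻¹ * c⁻¹ * d⁻¹ * c⁻¹ * b⁻¹ = _ :=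
    (show _ = ((d * b * (b * c))⁻¹ * (d * b * (b * c) * (b * c * (c * d))) *
      (d * b * (b * c) * (b * c * (c * d)) * (b * c * (c * d) * (c * d * (d * b))))⁻¹ *
      (d * b * (b * c) * (b * c * (c * d))) * (d * b * (b * c))⁻¹ * (d * b * (b * c) * (b * c * (c * d))) *
      (d * b * (b * c))⁻¹ * (d * b))⁻¹ * ((d * b)⁻¹ * (d * b * (b * c)) * (d * b * (b * c) * (b * c * (c * d)))⁻¹ *
      (d * b * (b * c)) * (d * b)⁻¹ * (d * b * (b * c)) * (d * b)⁻¹ * d) by simp [mul_assoc])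
  rw [f1, ← key2]
  simp [mul_assoc]

theorem Law.three {G : Type} [Group G] (h : Law 4 G) (y : G) (hy : y ^ 3 = 1) (x : G) :
    Commute x y := by
  set b := x⁻¹ * y⁻¹ * x * y with hbd
  set c := b⁻¹ * y⁻¹ * b * y with hcd
  set d := c⁻¹ * y⁻¹ * c * y with hdd
  have hb : y⁻¹ * b * y = b * c := by rw [hcd]; group
  have hc : y⁻¹ * c * y = c * d := by rw [hdd]; group
  have hb4 : b = d⁻¹ * y⁻¹ * d * y := by
    have := h x y
    rw [← hbd] at this
    rw [this]
    simp only [Function.iterate_succ, Function.iterate_zero, Function.comp, id]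
    rfl
  have hd : y⁻¹ * d * y = d * b := by rw [hb4]; group
  have m : ∀ u v : G, y⁻¹ * (u * v) * y = (y⁻¹ * u * y) * (y⁻¹ * v * y) := by intro u v; group
  have y3 : ∀ u : G, y⁻¹ * (y⁻¹ * (y⁻¹ * u * y) * y) * y = u := by
    intro u
    have e : y⁻¹ * (y⁻¹ * (y⁻¹ * u * y) * y) * y = (y ^ 3)⁻¹ * u * y ^ 3 := by
      simp [pow_succ, mul_assoc]
    rw [e, hy]; simp
  -- c = c^(y^3), d = d^(y^3)
  have r2 : c = c * d * (d * b) * (d * b * (b * c)) := by
    have := y3 c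
    rw [hc, m c d, hc, hd, m (c * d) (d * b), m c d, m d b, hc, hd, hb] at this
    exact this.symm
  have r3 : d = d * b * (b * c) * (b * c * (c * d)) := by
    have := y3 d
    rw [hd, m d b, hd, hb, m (d * b) (b * c), m d b, m b c, hd, hb, hc] at this
    exact this.symm
  have i2 : d * d * b * d * b * b * c = 1 := by
    have e : c * (d * d * b * d * b * b * c) = c :=
      calc c * (d * d * b * d * b * b * c) = c * d * (d * b) * (d * b * (b * c)) := by simp [mul_assoc]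
        _ = c := r2.symm
    exact mul_eq_left.1 e
  have i3 : b * b * c * b * c * c * d = 1 := by
    have e : d * (b * b * c * b * c * c * d) = d :=
      calc d * (b * b * c * b * c * c * d) = d * b * (b * c) * (b * c * (c * d)) := by simp [mul_assoc]
        _ = d := r3.symm
    exact mul_eq_left.1 e
  have r4 := h.rel y c d b hc hd hb
  have q : c * c * d * d * b * b * c * b⁻¹ * d⁻¹ * b⁻¹ * d⁻¹ = b⁻¹ * b⁻¹ * d⁻¹ * b⁻¹ * d⁻¹ * d⁻¹ :=
    calc c * c * d * d * b * b * c * b⁻¹ * d⁻¹ * b⁻¹ * d⁻¹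
        = c * (c * d * d * b * b * c * b⁻¹ * d⁻¹ * b⁻¹ * d⁻¹ * c⁻¹) * c := by simp [mul_assoc]
      _ = c * (c⁻¹ * b⁻¹ * b⁻¹ * d⁻¹ * b⁻¹ * d⁻¹ * d⁻¹ * c⁻¹) * c := by rw [r4]
      _ = _ := by simp [mul_assoc]
  have k1 : b⁻¹ * d⁻¹ * b⁻¹ = b * c * d * d := by
    have e : (b * d * b) * (b * c * d * d) = 1 :=
      calc (b * d * b) * (b * c * d * d) = (d * d)⁻¹ * (d * d * b * d * b * b * c) * (d * d) := by
            simp [mul_assoc]
        _ = 1 := by rw [i2]; simp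
    rw [← inv_eq_of_mul_eq_one_right e]; simp [mul_assoc]
  have k2 : b * b * c * b * c = d⁻¹ * c⁻¹ := by
    have e : (b * b * c * b * c) * (c * d) = 1 := by rw [← i3]; simp [mul_assoc]
    rw [eq_inv_of_mul_eq_one_left e]; simp
  have k3 : b⁻¹ * b⁻¹ * d⁻¹ * b⁻¹ * d⁻¹ * d⁻¹ = c := by
    rw [← inv_eq_of_mul_eq_one_right i2]; simp [mul_assoc]
  have k4 : c * c * d * c⁻¹ * d = c :=
    calc c * c * d * c⁻¹ * d = c * c * d * d * (d⁻¹ * c⁻¹) * d := by simp [mul_assoc]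
      _ = c * c * d * d * (b * b * c * b * c) * d := by rw [k2]
      _ = c * c * d * d * b * b * c * (b * c * d * d) * d⁻¹ := by simp [mul_assoc]
      _ = c * c * d * d * b * b * c * (b⁻¹ * d⁻¹ * b⁻¹) * d⁻¹ := by rw [k1]
      _ = c * c * d * d * b * b * c * b⁻¹ * d⁻¹ * b⁻¹ * d⁻¹ := by simp [mul_assoc]
      _ = b⁻¹ * b⁻¹ * d⁻¹ * b⁻¹ * d⁻¹ * d⁻¹ := q
      _ = c := k3
  have k5 : (c⁻¹)⁻¹ * d * c⁻¹ = d⁻¹ := by
    have e : (c * d * c⁻¹) * d = 1 := by
      have e1 : c * ((c * d * c⁻¹) * d) = c :=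
        calc c * ((c * d * c⁻¹) * d) = c * c * d * c⁻¹ * d := by simp only [mul_assoc]
          _ = c := k4
      exact mul_eq_left.1 e1
    rw [inv_inv]; exact eq_inv_of_mul_eq_one_left e
  have k6 := h.real (by norm_num) c⁻¹ d k5
  have k7 := h.involution (by norm_num) d k6 y
  have hb1 : b = 1 := by
    rw [hb4]
    have : d⁻¹ * y⁻¹ * d * y = d⁻¹ * y⁻¹ * (d * y) := by group
    rw [this, ← k7.eq]; group
  have : y * x * b = x * y := by rw [hbd]; group
  rw [hb1, mul_one] at this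
  exact this.symm

theorem Law.three_power {G : Type} [Group G] (h : Law 4 G) (k : ℕ) (g : G)
    (hg : g ^ 3 ^ k = 1) : g ∈ Subgroup.center G := by
  induction k generalizing g with
  | zero => simp at hg; rw [hg]; exact Subgroup.one_mem _
  | succ k ih =>
    have h2 : g ^ 3 ∈ Subgroup.center G := by
      apply ih
      rw [← pow_mul, ← hg]; congr 1; ring
    apply h.second_center (by norm_num)
    rw [Subgroup.mem_center_iff]
    intro x
    have hQ : Law 4 (G ⧸ Subgroup.center G) := h.surj (QuotientGroup.mk' _) (QuotientGroup.mk'_surjective _)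
    apply (hQ.three _ _ x).eq
    exact (QuotientGroup.eq_one_iff _).2 h2

/-- In a group with the law `[x,y] = [x,y,y,y,y]` every element whose order divides some
`2^i 3^j` is central. -/
theorem result (G : Type) [Group G]
    (hlaw : ∀ x y : G, x⁻¹ * y⁻¹ * x * y = (fun z : G => z⁻¹ * y⁻¹ * z * y)^[4] x)
    (g : G) (i j : ℕ) (hg : g ^ (2 ^ i * 3 ^ j) = 1) (x : G) : g * x = x * g := by
  have h : Law 4 G := hlaw
  have h1 : g ^ 2 ^ i ∈ Subgroup.center G := by
    apply h.three_power j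
    rw [← pow_mul]; exact hg
  have h2 : g ∈ Subgroup.center G := by
    apply h.second_center (by norm_num)
    have hQ : Law 4 (G ⧸ Subgroup.center G) := h.surj (QuotientGroup.mk' _) (QuotientGroup.mk'_surjective _)
    apply hQ.two_power (by norm_num) i
    exact (QuotientGroup.eq_one_iff _).2 h1
  exact (Subgroup.mem_center_iff.1 h2 x).symm

end Pool.Agent.Results.MP_429c3d_al.FourfoldTorsion
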