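import Mathlib
set_option autoImplicit false
set_option linter.all false

/-!
# Groups with the law `[x,y] = [x,_n y]` (`n > 1`): the derived subgroup of a 2-generator subgroup

Let `G` be a group with the law `L_n : [x,y] = [x,_n y]`, `n > 1`, and let `x`, `y` be elements which
do not commute. Then `x` is not of `2`-power order (elements of `2`-power order are central), and the
derived subgroup `D` of `⟨x,y⟩` is finitely generated and perfect, has no proper subgroup of finite
index, and has an infinite simple quotient without elements of `2`-power order. So the groups with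
`L_n` are abelian if all their non-trivial finitely generated perfect subgroups have proper subgroups
of finite index; and all groups with `L_n` are abelian if and only if `L_n` holds in no infinite,
finitely generated simple group without involutions.

Proof. If `y` commutes with `y^x` then `[x,y]` commutes with `y`, so that `[x,y] = [x,_n y] = 1`.
Hence an element conjugate to its inverse has square `1`, the product of two conjugate involutions is
such an element, so that involutions are central; and the second centre is the centre. Abelian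
normal subgroups are central, so metabelian groups with `L_n` are abelian; nilpotent ones too, and
by the transfer theorem of Burnside the finite ones. Expanding `[u,_n x] = [u,x]` shows that
`⟨u^(x^j) : j⟩` is generated by `u, u^x, ..., u^(x^(n-1))`; it follows that the derived subgroup of
`⟨x,y⟩` is finitely generated (as for restrained groups, Kim and Rhemtulla), and it is perfect by
the metabelian case. A non-trivial one has an infinite simple quotient.
-/

namespace Pool.Agent.Results.MP_429c3d_al.SimpleReduction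

open scoped commutatorElement

/-- the law `[x,y] = [x,_n y]` (used in the proof only) -/
def Law (n : ℕ) (G : Type) [Group G] : Prop :=
  ∀ x y : G, x⁻¹ * y⁻¹ * x * y = (fun z : G => z⁻¹ * y⁻¹ * z * y)^[n] x

variable {n : ℕ}

theorem map_iter {G Q : Type} [Group G] [Group Q] (f : G →* Q) (y : G) (k : ℕ) (x : G) :
    f ((fun z : G => z⁻¹ * y⁻¹ * z * y)^[k] x) = (fun z : Q => z⁻¹ * (f y)⁻¹ * z * f y)^[k] (f x) := by
  induction k with
  | zero => rfl
  | succ k ih => rw [Function.iterate_succ_apply', Function.iterate_succ_apply', ← ih]; simp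

theorem Law.inj {G Q : Type} [Group G] [Group Q] (f : G →* Q) (hf : Function.Injective f)
    (h : Law n Q) : Law n G := by
  intro x y
  apply hf
  rw [map_iter]
  simpa using h (f x) (f y)

theorem Law.surj {G Q : Type} [Group G] [Group Q] (f : G →* Q) (hf : Function.Surjective f)
    (h : Law n G) : Law n Q := by
  intro x y
  obtain ⟨x, rfl⟩ := hf x
  obtain ⟨y, rfl⟩ := hf y
  rw [← map_iter, ← h x y]; simp

/-- (P) -/
theorem Law.comm {G : Type} [Group G] (hn : 1 < n) (h : Law n G) (x y : G)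
    (hc : Commute y (x⁻¹ * y * x)) : Commute x y := by
  obtain ⟨m, rfl⟩ : ∃ m, n = m + 2 := ⟨n - 2, by omega⟩
  have h1 := h x y
  rw [Function.iterate_add_apply] at h1
  have h2 : (fun z : G => z⁻¹ * y⁻¹ * z * y)^[2] x = 1 := by
    show (x⁻¹ * y⁻¹ * x * y)⁻¹ * y⁻¹ * (x⁻¹ * y⁻¹ * x * y) * y = 1
    have hb : Commute y (x⁻¹ * y⁻¹ * x * y) := by
      apply Commute.mul_right _ (Commute.refl y)
      have := hc.inv_right
      simpa [mul_assoc] using this
    have : (x⁻¹ * y⁻¹ * x * y)⁻¹ * y⁻¹ * (x⁻¹ * y⁻¹ * x * y) * y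
        = (x⁻¹ * y⁻¹ * x * y)⁻¹ * (y⁻¹ * (x⁻¹ * y⁻¹ * x * y)) * y := by group
    rw [this, hb.inv_left.eq]
    group
  have h3 : (fun z : G => z⁻¹ * y⁻¹ * z * y)^[m] (1 : G) = 1 := by
    apply Function.iterate_fixed
    simp
  rw [h2, h3] at h1
  have : x * y = y * x := by
    have e : y * x * (x⁻¹ * y⁻¹ * x * y) = x * y := by group
    rw [h1] at e; simpa using e.symm
  exact this

theorem Law.abelian_of_derived {G : Type} [Group G] (hn : 1 < n) (h : Law n G)
    (hG : ∀ a ∈ commutator G, ∀ b ∈ commutator G, Commute a b) (a b : G) : a * b = b * a := by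
  have hz : ∀ c ∈ commutator G, ∀ x : G, Commute x c := by
    intro c hc x
    apply h.comm hn
    apply hG _ hc
    have := (inferInstance : (commutator G).Normal).conj_mem c hc x⁻¹
    simpa using this
  apply h.comm hn a b
  have e : a⁻¹ * b * a = b * (b⁻¹ * a⁻¹ * b * a) := by group
  rw [e]
  apply (Commute.refl b).mul_right
  apply hz
  have := Subgroup.commutator_mem_commutator (Subgroup.mem_top b⁻¹) (Subgroup.mem_top a⁻¹)
  simpa [commutatorElement_def, commutator_def] using this

/-- an element conjugate to its inverse -/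
theorem Law.real {G : Type} [Group G] (hn : 1 < n) (h : Law n G) (g b : G)
    (hb : g⁻¹ * b * g = b⁻¹) : b * b = 1 := by
  have hc : Commute b (g⁻¹ * b * g) := by rw [hb]; exact (Commute.refl b).inv_right
  have := h.comm hn g b hc
  have e : g⁻¹ * b * g = b := by rw [mul_assoc, ← this.eq]; group
  rw [hb] at e
  calc b * b = b * b⁻¹ := by rw [e]
    _ = 1 := by group

theorem Law.involution {G : Type} [Group G] (hn : 1 < n) (h : Law n G) (y : G) (hy : y * y = 1) (x : G) :
    Commute x y := by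
  apply h.comm hn
  have hz : (x⁻¹ * y * x) * (x⁻¹ * y * x) = 1 := by
    calc (x⁻¹ * y * x) * (x⁻¹ * y * x) = x⁻¹ * (y * y) * x := by group
      _ = 1 := by rw [hy]; group
  set z := x⁻¹ * y * x with hzdef
  have yi : y⁻¹ = y := inv_eq_of_mul_eq_one_left hy
  have zi : z⁻¹ = z := inv_eq_of_mul_eq_one_left hz
  have hr : y⁻¹ * (y * z) * y = (y * z)⁻¹ := by
    rw [mul_inv_rev, yi, zi, ← mul_assoc, hy, one_mul]
  have := h.real hn y (y * z) hr
  show y * z = z * y
  have e2 : y * z = (y * z)⁻¹ := by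
    exact (inv_eq_of_mul_eq_one_left this).symm
  rw [e2, mul_inv_rev, yi, zi]

theorem Law.second_center {G : Type} [Group G] (hn : 1 < n) (h : Law n G) (g : G)
    (hg : (g : G ⧸ Subgroup.center G) ∈ Subgroup.center (G ⧸ Subgroup.center G)) :
    g ∈ Subgroup.center G := by
  rw [Subgroup.mem_center_iff]
  intro x
  apply (h.comm hn x g _).eq
  rw [Subgroup.mem_center_iff] at hg
  have h1 := hg (x : G ⧸ Subgroup.center G)
  have h2 : g⁻¹ * (x⁻¹ * g * x) ∈ Subgroup.center G := by
    rw [← QuotientGroup.eq_one_iff]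
    have e3 : ((g⁻¹ * (x⁻¹ * g * x) : G) : G ⧸ Subgroup.center G)
        = (g : G ⧸ Subgroup.center G)⁻¹ * ((x : G ⧸ Subgroup.center G)⁻¹ * (g * x)) := by
      rw [← mul_assoc (x : G ⧸ Subgroup.center G)⁻¹]; rfl
    rw [e3, ← h1]
    group
  rw [Subgroup.mem_center_iff] at h2
  have e : x⁻¹ * g * x = g * (g⁻¹ * (x⁻¹ * g * x)) := by group
  rw [e]
  exact (Commute.refl g).mul_right (h2 g)

theorem Law.two_power {G : Type} [Group G] (hn : 1 < n) (h : Law n G) (k : ℕ) (g : G)
    (hg : g ^ 2 ^ k = 1) : g ∈ Subgroup.center G := by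
  induction k generalizing g with
  | zero => simp at hg; rw [hg]; exact Subgroup.one_mem _
  | succ k ih =>
    have h2 : g ^ 2 ∈ Subgroup.center G := by
      apply ih
      rw [← pow_mul, ← hg]; congr 1; ring
    apply h.second_center hn
    rw [Subgroup.mem_center_iff]
    intro x
    have hQ : Law n (G ⧸ Subgroup.center G) := h.surj (QuotientGroup.mk' _) (QuotientGroup.mk'_surjective _)
    apply (hQ.involution hn _ _ x).eq
    have : ((g ^ 2 : G) : G ⧸ Subgroup.center G) = 1 := (QuotientGroup.eq_one_iff _).2 h2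
    rw [pow_two] at this
    simpa using this

theorem Law.nilpotent {G : Type} [Group G] [Group.IsNilpotent G] (hn : 1 < n) (h : Law n G) :
    ∀ a b : G, a * b = b * a := by
  revert h
  refine Group.nilpotent_center_quotient_ind (P := fun G _ _ => Law n G → ∀ a b : G, a * b = b * a) G ?_ ?_
  · intro G _ _ _ a b
    exact Subsingleton.elim _ _
  · intro G _ _ ih h a b
    have hQ : Law n (G ⧸ Subgroup.center G) := h.surj (QuotientGroup.mk' _) (QuotientGroup.mk'_surjective _)
    have := ih hQ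
    have hb : b ∈ Subgroup.center G := by
      apply h.second_center hn
      rw [Subgroup.mem_center_iff]
      intro x; exact this _ _
    exact (Subgroup.mem_center_iff.1 hb a)

theorem commutator_le_of {G : Type} [Group G] (K : Subgroup G) [K.Normal]
    (h : ∀ a b : G ⧸ K, a * b = b * a) : commutator G ≤ K := by
  rw [commutator_def, Subgroup.commutator_le]
  intro a _ b _
  rw [← QuotientGroup.eq_one_iff]
  have : ((⁅a, b⁆ : G) : G ⧸ K) = ⁅(a : G ⧸ K), (b : G ⧸ K)⁆ := rfl
  rw [this, commutatorElement_eq_one_iff_commute]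
  exact h _ _

theorem Law.finite (hn : 1 < n) : ∀ (N : ℕ) {G : Type} [Group G] [Finite G], Nat.card G = N → Law n G →
    ∀ a b : G, a * b = b * a := by
  intro N
  induction N using Nat.strong_induction_on with
  | _ N ih =>
  intro G _ _ hN h
  by_cases hs : Subsingleton G
  · intro a b; exact Subsingleton.elim _ _
  have hN1 : N ≠ 1 := by
    intro h1
    rw [h1, Nat.card_eq_one_iff_unique] at hN
    exact hs hN.1
  obtain ⟨p, hp, hpN⟩ := Nat.exists_prime_and_dvd hN1
  haveI : Fact p.Prime := ⟨hp⟩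
  let P : Sylow p G := default
  have hPlaw : Law n (P : Subgroup G) := h.inj (P : Subgroup G).subtype (Subgroup.subtype_injective _)
  haveI : Group.IsNilpotent (P : Subgroup G) := P.isPGroup'.isNilpotent
  have hPc : ∀ a ∈ (P : Subgroup G), ∀ b ∈ (P : Subgroup G), a * b = b * a := by
    intro a ha b hb
    have := hPlaw.nilpotent hn ⟨a, ha⟩ ⟨b, hb⟩
    exact congrArg Subtype.val this
  have hP : Subgroup.normalizer (P : Set G) ≤ Subgroup.centralizer (P : Set G) := by
    intro g hg
    rw [Subgroup.mem_centralizer_iff]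
    intro y hy
    have h1 : g * y * g⁻¹ ∈ (P : Subgroup G) := (Subgroup.mem_normalizer_iff.1 hg y).1 hy
    have h2 : Commute y ((g⁻¹)⁻¹ * y * g⁻¹) := by
      rw [inv_inv]; exact hPc y hy _ h1
    have h3 := h.comm hn g⁻¹ y h2
    have h4 : Commute g y := by simpa using h3.inv_left
    exact h4.eq.symm
  set K := (MonoidHom.transferSylow P hP).ker with hK
  have hKp : ¬ p ∣ Nat.card K := MonoidHom.not_dvd_card_ker_transferSylow P hP
  have hKlt : Nat.card K < N := by
    rw [← hN]
    apply lt_of_le_of_ne (Subgroup.card_le_card_group K)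
    intro e
    apply hKp
    rw [e, hN]; exact hpN
  have hKc := ih (Nat.card K) hKlt rfl (h.inj K.subtype (Subgroup.subtype_injective _))
  have hle : commutator G ≤ K := by
    rw [commutator_def, Subgroup.commutator_le]
    intro a _ b _
    rw [hK, MonoidHom.mem_ker, map_commutatorElement, commutatorElement_eq_one_iff_commute]
    apply Subtype.ext
    exact hPc _ (Subtype.mem _) _ (Subtype.mem _)
  apply h.abelian_of_derived hn
  intro a ha b hb
  exact congrArg Subtype.val (hKc ⟨a, hle ha⟩ ⟨b, hle hb⟩)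

theorem map_comm {G Q : Type} [Group G] [Group Q] (f : G →* Q) (hf : Function.Surjective f) :
    commutator Q = (commutator G).map f := by
  rw [commutator_def, commutator_def, Subgroup.map_commutator, Subgroup.map_top_of_surjective _ hf]

theorem Law.perfect {G : Type} [Group G] (hn : 1 < n) (h : Law n G) :
    commutator G ≤ ⁅commutator G, commutator G⁆ := by
  have hQ : Law n (G ⧸ ⁅commutator G, commutator G⁆) :=
    h.surj (QuotientGroup.mk' _) (QuotientGroup.mk'_surjective _)
  apply commutator_le_of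
  apply hQ.abelian_of_derived hn
  have hm : commutator (G ⧸ ⁅commutator G, commutator G⁆) =
      (commutator G).map (QuotientGroup.mk' ⁅commutator G, commutator G⁆) :=
    map_comm _ (QuotientGroup.mk'_surjective _)
  rw [hm]
  rintro _ ⟨a, ha, rfl⟩ _ ⟨b, hb, rfl⟩
  rw [← commutatorElement_eq_one_iff_commute, ← map_commutatorElement]
  exact (QuotientGroup.eq_one_iff _).2 (Subgroup.commutator_mem_commutator ha hb)

theorem Law.no_finite_quotient {H : Type} [Group H] (hn : 1 < n) (h : Law n H)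
    (hp : commutator H = ⊤) (K : Subgroup H) (hK : K.index ≠ 0) : K = ⊤ := by
  haveI : K.FiniteIndex := ⟨hK⟩
  haveI : Finite (H ⧸ K.normalCore) := Subgroup.finite_quotient_of_finiteIndex
  have hQ : Law n (H ⧸ K.normalCore) := h.surj (QuotientGroup.mk' _) (QuotientGroup.mk'_surjective _)
  have h1 := commutator_le_of K.normalCore (Law.finite hn _ rfl hQ)
  rw [hp] at h1
  exact top_le_iff.1 (h1.trans (Subgroup.normalCore_le K))

def C {G : Type} [Group G] (u x : G) (k : ℕ) : Subgroup G :=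
  Subgroup.closure {w | ∃ j < k, w = (x ^ j)⁻¹ * u * x ^ j}

theorem C_mem {G : Type} [Group G] (u x : G) {j k : ℕ} (h : j < k) : (x ^ j)⁻¹ * u * x ^ j ∈ C u x k :=
  Subgroup.subset_closure ⟨j, h, rfl⟩

theorem C_conj_succ {G : Type} [Group G] (u x : G) (k : ℕ) (w : G) (hw : w ∈ C u x k) :
    x⁻¹ * w * x ∈ C u x (k + 1) := by
  refine Subgroup.closure_induction (p := fun w _ => x⁻¹ * w * x ∈ C u x (k + 1)) ?_ ?_ ?_ ?_ hw
  · rintro _ ⟨j, hj, rfl⟩
    have := C_mem u x (j := j + 1) (k := k + 1) (by omega)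
    convert this using 1
    rw [pow_succ]; group
  · simpa using Subgroup.one_mem _
  · intro a b _ _ ha hb
    have e : x⁻¹ * (a * b) * x = (x⁻¹ * a * x) * (x⁻¹ * b * x) := by group
    rw [e]; exact Subgroup.mul_mem _ ha hb
  · intro a _ ha
    have e : x⁻¹ * a⁻¹ * x = (x⁻¹ * a * x)⁻¹ := by group
    rw [e]; exact Subgroup.inv_mem _ ha

theorem C_mono {G : Type} [Group G] (u x : G) {k l : ℕ} (h : k ≤ l) : C u x k ≤ C u x l := by
  apply Subgroup.closure_mono
  rintro _ ⟨j, hj, rfl⟩
  exact ⟨j, by omega, rfl⟩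

theorem iter_form {G : Type} [Group G] (u x : G) (k : ℕ) :
    ∃ w ∈ C u x k, (fun z : G => z⁻¹ * x⁻¹ * z * x)^[k] u = w * ((x ^ k)⁻¹ * u * x ^ k) := by
  induction k with
  | zero => exact ⟨1, Subgroup.one_mem _, by simp⟩
  | succ k ih =>
    obtain ⟨w, hw, e⟩ := ih
    refine ⟨((x ^ k)⁻¹ * u * x ^ k)⁻¹ * w⁻¹ * (x⁻¹ * w * x), ?_, ?_⟩
    · apply Subgroup.mul_mem _ (Subgroup.mul_mem _ _ _) (C_conj_succ u x k w hw)
      · exact Subgroup.inv_mem _ (C_mem u x (by omega))
      · exact Subgroup.inv_mem _ (C_mono u x (by omega) hw)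
    · rw [Function.iterate_succ_apply', e, pow_succ]; group

theorem Law.C_conj {G : Type} [Group G] (hn : 1 < n) (h : Law n G) (u x s : G) (hs : s ∈ C u x n) :
    x⁻¹ * s * x ∈ C u x n := by
  have key : (x ^ n)⁻¹ * u * x ^ n ∈ C u x n := by
    obtain ⟨w, hw, e⟩ := iter_form u x n
    rw [← h u x] at e
    have e2 : (x ^ n)⁻¹ * u * x ^ n = w⁻¹ * (u⁻¹ * (x⁻¹ * u * x)) := by
      have : (x ^ n)⁻¹ * u * x ^ n = w⁻¹ * (w * ((x ^ n)⁻¹ * u * x ^ n)) := by group
      rw [this, ← e]; group
    rw [e2]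
    apply Subgroup.mul_mem _ (Subgroup.inv_mem _ hw) (Subgroup.mul_mem _ (Subgroup.inv_mem _ _) _)
    · simpa using C_mem u x (j := 0) (k := n) (by omega)
    · simpa using C_mem u x (j := 1) (k := n) (by omega)
  have h1 := C_conj_succ u x n s hs
  refine (?_ : C u x (n + 1) ≤ C u x n) h1
  unfold C
  rw [Subgroup.closure_le]
  rintro _ ⟨j, hj, rfl⟩
  rcases Nat.lt_succ_iff_lt_or_eq.1 hj with h2 | h2
  · exact C_mem u x h2
  · rw [h2]; exact key

theorem Law.C_conj' {G : Type} [Group G] (hn : 1 < n) (h : Law n G) (u x s : G) (hs : s ∈ C u x n) :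
    x * s * x⁻¹ ∈ C u x n := by
  have e : C u x n = C ((x ^ (n - 1))⁻¹ * u * x ^ (n - 1)) x⁻¹ n := by
    apply le_antisymm
    · unfold C
      rw [Subgroup.closure_le]
      rintro _ ⟨j, hj, rfl⟩
      refine Subgroup.subset_closure ⟨n - 1 - j, by omega, ?_⟩
      have e1 : x ^ (n - 1) = x ^ j * x ^ (n - 1 - j) := by rw [← pow_add]; congr 1; omega
      rw [e1, inv_pow]; group
    · unfold C
      rw [Subgroup.closure_le]
      rintro _ ⟨j, hj, rfl⟩
      refine Subgroup.subset_closure ⟨n - 1 - j, by omega, ?_⟩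
      have e1 : x ^ (n - 1) = x ^ (n - 1 - j) * x ^ j := by rw [← pow_add]; congr 1; omega
      rw [e1, inv_pow]; group
  rw [e] at hs ⊢
  simpa using h.C_conj hn _ x⁻¹ s hs

theorem mem_normalizer_of {G : Type} [Group G] (M : Subgroup G) (s : G)
    (h1 : ∀ m ∈ M, s⁻¹ * m * s ∈ M) (h2 : ∀ m ∈ M, s * m * s⁻¹ ∈ M) :
    s ∈ Subgroup.normalizer (M : Set G) := by
  rw [Subgroup.mem_normalizer_iff]
  intro m
  refine ⟨h2 m, fun h => ?_⟩
  have := h1 _ h
  simpa [mul_assoc] using this

theorem normal_of {G : Type} [Group G] (M : Subgroup G) (S : Set G) (hS : Subgroup.closure S = ⊤)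
    (h : ∀ s ∈ S, s ∈ Subgroup.normalizer (M : Set G)) : M.Normal := by
  rw [← Subgroup.normalizer_eq_top_iff, ← top_le_iff, ← hS, Subgroup.closure_le]
  exact h

theorem Law.derived_fg {G : Type} [Group G] (hn : 1 < n) (h : Law n G) (x y : G)
    (hxy : Subgroup.closure {x, y} = ⊤) : (commutator G).FG := by
  set M := C x y n with hM
  have hxM : x ∈ M := by simpa using C_mem x y (j := 0) (k := n) (by omega)
  have hyN : y ∈ Subgroup.normalizer (M : Set G) :=
    mem_normalizer_of M y (fun m hm => h.C_conj hn x y m hm) (fun m hm => h.C_conj' hn x y m hm)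
  haveI hMn : M.Normal := by
    apply normal_of M _ hxy
    rintro s (rfl | rfl)
    · exact Subgroup.le_normalizer hxM
    · exact hyN
  have hcyc : ∀ g : G, ∃ k : ℤ, (g : G ⧸ M) = (y : G ⧸ M) ^ k := by
    intro g
    have hg : g ∈ Subgroup.closure {x, y} := by rw [hxy]; exact Subgroup.mem_top g
    refine Subgroup.closure_induction (p := fun (g : G) _ => ∃ k : ℤ, (g : G ⧸ M) = (y : G ⧸ M) ^ k) ?_ ?_ ?_ ?_ hg
    · rintro s (rfl | rfl)
      · exact ⟨0, by rw [zpow_zero]; exact (QuotientGroup.eq_one_iff _).2 hxM⟩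
      · exact ⟨1, by simp⟩
    · exact ⟨0, by simp⟩
    · rintro a b _ _ ⟨k, hk⟩ ⟨l, hl⟩
      exact ⟨k + l, by rw [zpow_add, ← hk, ← hl]; rfl⟩
    · rintro a _ ⟨k, hk⟩
      exact ⟨-k, by rw [zpow_neg, ← hk]; rfl⟩
  have hGM : commutator G ≤ M := by
    apply commutator_le_of
    intro a b
    obtain ⟨a, rfl⟩ := QuotientGroup.mk_surjective a
    obtain ⟨b, rfl⟩ := QuotientGroup.mk_surjective b
    obtain ⟨k, hk⟩ := hcyc a
    obtain ⟨l, hl⟩ := hcyc b
    rw [hk, hl]
    exact (Commute.refl (y : G ⧸ M)).zpow_zpow k l |>.eq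
  -- the subgroup L
  set T : Set G := {w | ∃ j < n, ∃ i < n, w = (x ^ i)⁻¹ * (x⁻¹ * ((y ^ j)⁻¹ * x * y ^ j)) * x ^ i} with hT
  have hTfin : T.Finite := by
    have : T ⊆ (fun p : ℕ × ℕ => (x ^ p.2)⁻¹ * (x⁻¹ * ((y ^ p.1)⁻¹ * x * y ^ p.1)) * x ^ p.2) ''
        ((Set.Iio n) ×ˢ (Set.Iio n)) := by
      rintro w ⟨j, hj, i, hi, rfl⟩
      exact ⟨(j, i), ⟨hj, hi⟩, rfl⟩
    exact (((Set.finite_Iio n).prod (Set.finite_Iio n)).image _).subset this
  set L := Subgroup.closure T with hL
  have hCL : ∀ j < n, C (x⁻¹ * ((y ^ j)⁻¹ * x * y ^ j)) x n ≤ L := by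
    intro j hj
    apply Subgroup.closure_mono
    rintro _ ⟨i, hi, rfl⟩
    exact ⟨j, hj, i, hi, rfl⟩
  have huL : ∀ j < n, x⁻¹ * ((y ^ j)⁻¹ * x * y ^ j) ∈ L := by
    intro j hj
    apply hCL j hj
    simpa using C_mem (x⁻¹ * ((y ^ j)⁻¹ * x * y ^ j)) x (j := 0) (k := n) (by omega)
  have hxL1 : ∀ m ∈ L, x⁻¹ * m * x ∈ L := by
    intro m hm
    refine Subgroup.closure_induction (p := fun m _ => x⁻¹ * m * x ∈ L) ?_ ?_ ?_ ?_ hm
    · rintro _ ⟨j, hj, i, hi, rfl⟩
      exact hCL j hj (h.C_conj hn _ x _ (C_mem _ x hi))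
    · simpa using Subgroup.one_mem _
    · intro a b _ _ ha hb
      have e : x⁻¹ * (a * b) * x = (x⁻¹ * a * x) * (x⁻¹ * b * x) := by group
      rw [e]; exact Subgroup.mul_mem _ ha hb
    · intro a _ ha
      have e : x⁻¹ * a⁻¹ * x = (x⁻¹ * a * x)⁻¹ := by group
      rw [e]; exact Subgroup.inv_mem _ ha
  have hxL2 : ∀ m ∈ L, x * m * x⁻¹ ∈ L := by
    intro m hm
    refine Subgroup.closure_induction (p := fun m _ => x * m * x⁻¹ ∈ L) ?_ ?_ ?_ ?_ hm
    · rintro _ ⟨j, hj, i, hi, rfl⟩
      exact hCL j hj (h.C_conj' hn _ x _ (C_mem _ x hi))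
    · simpa using Subgroup.one_mem _
    · intro a b _ _ ha hb
      have e : x * (a * b) * x⁻¹ = (x * a * x⁻¹) * (x * b * x⁻¹) := by group
      rw [e]; exact Subgroup.mul_mem _ ha hb
    · intro a _ ha
      have e : x * a⁻¹ * x⁻¹ = (x * a * x⁻¹)⁻¹ := by group
      rw [e]; exact Subgroup.inv_mem _ ha
  have hxN : x ∈ Subgroup.normalizer (L : Set G) := mem_normalizer_of L x hxL1 hxL2
  have hTG : T ⊆ commutator G := by
    rintro _ ⟨j, hj, i, hi, rfl⟩
    have h1 : x⁻¹ * ((y ^ j)⁻¹ * x * y ^ j) ∈ commutator G := by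
      have := Subgroup.commutator_mem_commutator (Subgroup.mem_top x⁻¹) (Subgroup.mem_top (y ^ j)⁻¹)
      simpa [commutatorElement_def, commutator_def, mul_assoc] using this
    have := (inferInstance : (commutator G).Normal).conj_mem _ h1 (x ^ i)⁻¹
    simpa using this
  have hLG : L ≤ commutator G := (Subgroup.closure_le _).2 hTG
  have hMx : ∀ g ∈ M, ∃ k : ℤ, ∃ l ∈ L, g = x ^ k * l := by
    intro g hg
    refine Subgroup.closure_induction (p := fun g _ => ∃ k : ℤ, ∃ l ∈ L, g = x ^ k * l) ?_ ?_ ?_ ?_ hg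
    · rintro _ ⟨j, hj, rfl⟩
      exact ⟨1, _, huL j hj, by group⟩
    · exact ⟨0, 1, Subgroup.one_mem _, by simp⟩
    · rintro a b _ _ ⟨k, l, hl, rfl⟩ ⟨k', l', hl', rfl⟩
      refine ⟨k + k', ((x ^ k')⁻¹ * l * x ^ k') * l', Subgroup.mul_mem _ ?_ hl', by rw [zpow_add]; group⟩
      have h3 : (x ^ k')⁻¹ ∈ Subgroup.normalizer (L : Set G) :=
        Subgroup.inv_mem _ (Subgroup.zpow_mem _ hxN k')
      have := (Subgroup.mem_normalizer_iff.1 h3 l).1 hl
      simpa using this
    · rintro a _ ⟨k, l, hl, rfl⟩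
      refine ⟨-k, x ^ k * l⁻¹ * (x ^ k)⁻¹, ?_, by group⟩
      exact (Subgroup.mem_normalizer_iff.1 (Subgroup.zpow_mem _ hxN k) l⁻¹).1 (Subgroup.inv_mem _ hl)
  let A : AddSubgroup ℤ :=
    { carrier := {k | x ^ k ∈ commutator G}
      add_mem' := by
        intro a b ha hb
        show x ^ (a + b) ∈ commutator G
        rw [zpow_add]; exact Subgroup.mul_mem _ ha hb
      zero_mem' := by
        show x ^ (0 : ℤ) ∈ commutator G
        rw [zpow_zero]; exact Subgroup.one_mem _
      neg_mem' := by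
        intro a ha
        show x ^ (-a) ∈ commutator G
        rw [zpow_neg]; exact Subgroup.inv_mem _ ha }
  obtain ⟨m, hm⟩ := Int.subgroup_cyclic A
  have hmem : ∀ k : ℤ, x ^ k ∈ commutator G ↔ ∃ t : ℤ, k = t * m := by
    intro k
    have h1 : x ^ k ∈ commutator G ↔ k ∈ A := Iff.rfl
    rw [h1, hm, AddSubgroup.mem_closure_singleton]
    constructor
    · rintro ⟨t, ht⟩; exact ⟨t, by rw [← ht]; simp⟩
    · rintro ⟨t, ht⟩; exact ⟨t, by rw [ht]; simp⟩
  rw [Subgroup.fg_iff]
  refine ⟨insert (x ^ m) T, ?_, hTfin.insert _⟩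
  apply le_antisymm
  · rw [Subgroup.closure_le]
    rintro w (rfl | hw)
    · exact (hmem m).2 ⟨1, by simp⟩
    · exact hTG hw
  · intro g hg
    obtain ⟨k, l, hl, rfl⟩ := hMx g (hGM hg)
    have hk : x ^ k ∈ commutator G := by
      have := Subgroup.mul_mem _ hg (Subgroup.inv_mem _ (hLG hl))
      simpa using this
    obtain ⟨t, rfl⟩ := (hmem k).1 hk
    apply Subgroup.mul_mem
    · rw [mul_comm, zpow_mul]
      exact Subgroup.zpow_mem _ (Subgroup.subset_closure (Set.mem_insert _ _)) _
    · exact Subgroup.closure_mono (Set.subset_insert _ _) hl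

/-- for `x, y` in a group with the law, the derived subgroup of `⟨x, y⟩` -/
theorem Law.pair {G : Type} [Group G] (hn : 1 < n) (h : Law n G) (x y : G) :
    ∃ H : Subgroup G, H = ⁅Subgroup.closure {x, y}, Subgroup.closure {x, y}⁆ ∧
      H.FG ∧ ⁅H, H⁆ = H ∧ (H = ⊥ → x * y = y * x) := by
  set K := Subgroup.closure {x, y} with hK
  have hlaw : Law n K := h.inj K.subtype (Subgroup.subtype_injective _)
  have hx : x ∈ K := Subgroup.subset_closure (by simp)
  have hy : y ∈ K := Subgroup.subset_closure (by simp)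
  have hcl : Subgroup.closure {(⟨x, hx⟩ : K), ⟨y, hy⟩} = ⊤ := by
    have := Subgroup.closure_closure_coe_preimage (k := ({x, y} : Set G))
    rw [← this]
    congr 1
    ext z
    simp [Subtype.ext_iff]
  obtain ⟨S, hS⟩ := hlaw.derived_fg hn ⟨x, hx⟩ ⟨y, hy⟩ hcl
  have hfg : ((commutator K).map K.subtype).FG :=
    (Subgroup.fg_iff _).2 ⟨K.subtype '' S, by rw [← MonoidHom.map_closure, hS], S.finite_toSet.image _⟩
  have hperf := hlaw.perfect hn
  refine ⟨(commutator K).map K.subtype, ?_, hfg, ?_, ?_⟩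
  · rw [commutator_def, Subgroup.map_commutator, ← MonoidHom.range_eq_map, Subgroup.range_subtype]
  · rw [← Subgroup.map_commutator]
    congr 1
    exact le_antisymm (Subgroup.commutator_le_left _ _) hperf
  · intro hb
    rw [Subgroup.map_eq_bot_iff_of_injective _ (Subgroup.subtype_injective _)] at hb
    have h1 : ⁅(⟨x, hx⟩ : K), ⟨y, hy⟩⁆ ∈ commutator K :=
      Subgroup.commutator_mem_commutator (Subgroup.mem_top _) (Subgroup.mem_top _)
    rw [hb, Subgroup.mem_bot, commutatorElement_eq_one_iff_commute] at h1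
    exact congrArg Subtype.val h1.eq

theorem exists_maximal_normal {H : Type} [Group H] [Nontrivial H] (hfg : Group.FG H) :
    ∃ N : Subgroup H, ∃ _ : N.Normal, IsSimpleGroup (H ⧸ N) := by
  classical
  obtain ⟨S, hS⟩ := hfg.out
  let A : Set (Subgroup H) := {N | N.Normal ∧ N ≠ ⊤}
  have hz := zorn_le_nonempty₀ A (by
    intro c hcA hc N₀ hN₀
    refine ⟨sSup c, ⟨?_, ?_⟩, fun z hz => le_sSup hz⟩
    · refine ⟨fun a ha g => ?_⟩
      rw [Subgroup.mem_sSup_of_directedOn ⟨N₀, hN₀⟩ hc.directedOn] at ha ⊢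
      obtain ⟨N, hN, haN⟩ := ha
      exact ⟨N, hN, (hcA hN).1.conj_mem a haN g⟩
    · intro htop
      have h1 : ∀ s ∈ S, ∃ N ∈ c, s ∈ N := by
        intro s _
        have : s ∈ sSup c := by rw [htop]; exact Subgroup.mem_top s
        rwa [Subgroup.mem_sSup_of_directedOn ⟨N₀, hN₀⟩ hc.directedOn] at this
      have h2 : ∀ F : Finset H, F ⊆ S → ∃ N ∈ c, ∀ s ∈ F, s ∈ N := by
        intro F
        induction F using Finset.induction_on with
        | empty => intro _; exact ⟨N₀, hN₀, by simp⟩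
        | insert a F _ ih =>
          intro hF
          obtain ⟨N, hN, hNF⟩ := ih (fun t ht => hF (Finset.mem_insert_of_mem ht))
          obtain ⟨N', hN', ha⟩ := h1 a (hF (Finset.mem_insert_self _ _))
          obtain ⟨M, hM, hNM, hN'M⟩ := hc.directedOn N hN N' hN'
          refine ⟨M, hM, ?_⟩
          intro s hs
          rcases Finset.mem_insert.1 hs with rfl | hs
          · exact hN'M ha
          · exact hNM (hNF s hs)
      obtain ⟨N, hN, hNS⟩ := h2 S (Finset.Subset.refl _)
      apply (hcA hN).2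
      rw [← top_le_iff, ← hS, Subgroup.closure_le]
      exact hNS) ⊥ ⟨inferInstance, bot_ne_top⟩
  obtain ⟨N, _, hN⟩ := hz
  haveI : N.Normal := hN.prop.1
  refine ⟨N, inferInstance, ?_⟩
  haveI : Nontrivial (H ⧸ N) := QuotientGroup.nontrivial_iff.2 hN.prop.2
  refine ⟨fun K hK => ?_⟩
  by_cases hKt : K = ⊤
  · exact Or.inr hKt
  left
  have hc1 : (K.comap (QuotientGroup.mk' N)) ∈ A := by
    refine ⟨hK.comap _, ?_⟩
    intro e
    apply hKt
    rw [← Subgroup.map_comap_eq_self_of_surjective (QuotientGroup.mk'_surjective N) K, e,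
      Subgroup.map_top_of_surjective _ (QuotientGroup.mk'_surjective N)]
  have hc2 : N ≤ K.comap (QuotientGroup.mk' N) := by
    intro a ha
    show (QuotientGroup.mk' N) a ∈ K
    have : (QuotientGroup.mk' N) a = 1 := (QuotientGroup.eq_one_iff a).2 ha
    rw [this]; exact Subgroup.one_mem _
  have hc3 := hN.le_of_ge hc1 hc2
  rw [eq_bot_iff]
  intro q hq
  obtain ⟨a, rfl⟩ := QuotientGroup.mk'_surjective N q
  have : a ∈ N := hc3 hq
  rw [Subgroup.mem_bot]
  exact (QuotientGroup.eq_one_iff a).2 this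

theorem Law.simple {H : Type} [Group H] [Nontrivial H] (hn : 1 < n) (h : Law n H) (hfg : Group.FG H)
    (hp : commutator H = ⊤) :
    ∃ N : Subgroup H, ∃ _ : N.Normal, IsSimpleGroup (H ⧸ N) ∧ Infinite (H ⧸ N) ∧
      ∀ (g : H ⧸ N) (k : ℕ), g ^ 2 ^ k = 1 → g = 1 := by
  obtain ⟨N, hN, hs⟩ := exists_maximal_normal hfg
  have hQ : Law n (H ⧸ N) := h.surj (QuotientGroup.mk' _) (QuotientGroup.mk'_surjective _)
  have hnc : ¬ ∀ a b : H ⧸ N, a * b = b * a := by
    intro hc
    have h1 := commutator_le_of N hc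
    rw [hp, top_le_iff] at h1
    haveI := hs.toNontrivial
    exact (QuotientGroup.nontrivial_iff.1 (inferInstance : Nontrivial (H ⧸ N))) h1
  refine ⟨N, hN, hs, ?_, ?_⟩
  · by_contra hf
    rw [not_infinite_iff_finite] at hf
    exact hnc (Law.finite hn _ rfl hQ)
  · intro g k hg
    have h1 := hQ.two_power hn k g hg
    haveI := hs
    rcases hs.eq_bot_or_eq_top_of_normal (Subgroup.center (H ⧸ N)) inferInstance with h2 | h2
    · rw [h2, Subgroup.mem_bot] at h1; exact h1
    · exfalso
      apply hnc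
      intro a b
      have : b ∈ Subgroup.center (H ⧸ N) := by rw [h2]; exact Subgroup.mem_top b
      exact (Subgroup.mem_center_iff.1 this a)

theorem commutator_eq_top {G : Type} [Group G] (H : Subgroup G) (h2 : ⁅H, H⁆ = H) :
    commutator H = ⊤ := by
  rw [← top_le_iff]
  intro g _
  have h4 : (g : G) ∈ ⁅H, H⁆ := by rw [h2]; exact g.2
  have h5 : (commutator H).map H.subtype = ⁅H, H⁆ := by
    rw [commutator_def, Subgroup.map_commutator, ← MonoidHom.range_eq_map, Subgroup.range_subtype]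
  rw [← h5] at h4
  obtain ⟨w, hw, hwg⟩ := h4
  have : w = g := Subtype.ext hwg
  rw [← this]; exact hw

/-- Let `n > 1` and let `x`, `y` be elements of a group with the law `[x,y] = [x,_n y]` which do not
commute. Then `x` is not of `2`-power order, and the derived subgroup `D` of `⟨x,y⟩` is finitely
generated, perfect, without proper subgroups of finite index, and it has an infinite simple quotient
group, without non-trivial elements of `2`-power order. -/
theorem result (n : ℕ) (hn : 1 < n) (G : Type) [Group G]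
    (hlaw : ∀ x y : G, x⁻¹ * y⁻¹ * x * y = (fun z : G => z⁻¹ * y⁻¹ * z * y)^[n] x)
    (x y : G) (hxy : x * y ≠ y * x) :
    (∀ k : ℕ, x ^ 2 ^ k ≠ 1) ∧
    ∃ D : Subgroup G, D = ⁅Subgroup.closure {x, y}, Subgroup.closure {x, y}⁆ ∧
      D.FG ∧ ⁅D, D⁆ = D ∧ (∀ K : Subgroup D, K.index ≠ 0 → K = ⊤) ∧
      ∃ N : Subgroup D, ∃ _ : N.Normal, IsSimpleGroup (D ⧸ N) ∧ Infinite (D ⧸ N) ∧
        ∀ (g : D ⧸ N) (k : ℕ), g ^ 2 ^ k = 1 → g = 1 := by
  have h : Law n G := hlaw
  refine ⟨fun k hk => hxy (Subgroup.mem_center_iff.1 (h.two_power hn k x hk) y).symm, ?_⟩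
  obtain ⟨H, h0, h1, h2, h3⟩ := h.pair hn x y
  have hH : H ≠ ⊥ := fun e => hxy (h3 e)
  haveI : Nontrivial H := (Subgroup.nontrivial_iff_ne_bot H).2 hH
  have hl : Law n H := h.inj H.subtype (Subgroup.subtype_injective _)
  have hp := commutator_eq_top H h2
  exact ⟨H, h0, h1, h2, fun K hK => hl.no_finite_quotient hn hp K hK,
    hl.simple hn ((Group.fg_iff_subgroup_fg H).2 h1) hp⟩

end Pool.Agent.Results.MP_429c3d_al.SimpleReduction
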